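import Pool.Agent.Q289.Bkr.Final

/-!
# Inequivalent bracketings of the power of a suitable single set have distinct values

The definitions are in `Q289.Bkr.Defs`: `cyl x K` is the cylinder `[x]_K`, `bkr A B` the BKR product
of `A` and `B`, a bracketing is a full binary tree `T : Br`, `T.pow A` is its value when all leaves
are labelled `A`, and `Swap T T'` says that `T'` arises from `T` by swapping the two subtrees at
some internal nodes.
-/

set_option autoImplicit false

namespace Pool.Agent.Results.MP_2d934b_pr.OneSetAllClasses

open Q289.Bkr

/-- for every `r ≥ 1` there are a dimension `d ≥ 1` and a set `A` in `{0, 1} ^ d` such that two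
bracketings with `r` leaves have the same value if and only if they are equivalent -/
theorem result (r : ℕ) (hr : 1 ≤ r) : ∃ (d : ℕ) (A : Set (Fin d → Bool)), 1 ≤ d ∧
    ∀ T T' : Br, T.size = r → T'.size = r → (T.pow A = T'.pow A ↔ Swap T T') :=
  main_pow r hr

end Pool.Agent.Results.MP_2d934b_pr.OneSetAllClasses
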